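import Pool.Agent.Helper61.QE.St2

set_option autoImplicit false

open MeasureTheory Set Filter Topology Complex Metric
open scoped ContDiff ComplexConjugate ENNReal

namespace Pool.Agent.Helper5.QE

open Pool.Agent.Helper68.QC Pool.Agent.Helper61.QE

/-- Hurwitz: a locally uniform limit of injective holomorphic functions on a preconnected open
set is injective or constant. -/
private theorem hurwitz_PLM {ι : Type} (l : Filter ι) [l.NeBot] (U : Set ℂ) (F : ι → ℂ → ℂ) (f : ℂ → ℂ)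
    (hU : IsOpen U) (hpre : IsPreconnected U) (hF : ∀ n, DifferentiableOn ℂ (F n) U)
    (hinj : ∀ n, InjOn (F n) U) (hlim : TendstoLocallyUniformlyOn F f l U) :
    InjOn f U ∨ ∃ c, ∀ z ∈ U, f z = c := by
  by_cases hfi : InjOn f U
  · exact Or.inl hfi
  right
  have hfd : DifferentiableOn ℂ f U := hlim.differentiableOn (Eventually.of_forall hF) hU
  rw [InjOn] at hfi
  push Not at hfi
  obtain ⟨z1, h1U, z2, h2U, hfe, hne⟩ := hfi
  refine ⟨f z1, fun z hz => ?_⟩
  have hgd : DifferentiableOn ℂ (fun z => f z - f z1) U := hfd.sub (differentiableOn_const _)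
  have hga : AnalyticOnNhd ℂ (fun z => f z - f z1) U := hgd.analyticOnNhd hU
  rcases (hga z2 h2U).eventually_eq_zero_or_eventually_ne_zero with h | h
  · have h2 := hga.eqOn_zero_of_preconnected_of_eventuallyEq_zero hpre h2U h hz
    exact sub_eq_zero.1 h2
  exfalso
  have h3 : ∀ᶠ z in 𝓝 z2, z ≠ z2 → f z - f z1 ≠ 0 := eventually_nhdsWithin_iff.1 h
  obtain ⟨r0, hr0, hb⟩ := Metric.eventually_nhds_iff_ball.1 (h3.and (hU.mem_nhds h2U))
  have hd0 : 0 < dist z1 z2 := dist_pos.2 hne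
  obtain ⟨r, hr, hrr0, hrd⟩ : ∃ r : ℝ, 0 < r ∧ r < r0 ∧ r < dist z1 z2 :=
    ⟨min r0 (dist z1 z2) / 2, by positivity,
      (half_lt_self (lt_min hr0 hd0)).trans_le (min_le_left _ _),
      (half_lt_self (lt_min hr0 hd0)).trans_le (min_le_right _ _)⟩
  have hsub : closedBall z2 r ⊆ U := fun z hz =>
    (hb z (closedBall_subset_ball hrr0 hz)).2
  have hz1 : z1 ∉ closedBall z2 r := by
    rw [mem_closedBall]
    exact not_le.2 hrd
  have hcs : IsCompact (sphere z2 r) := isCompact_sphere z2 r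
  obtain ⟨t0, ht0, hmin⟩ := hcs.exists_isMinOn (NormedSpace.sphere_nonempty.2 hr.le)
    (hgd.continuousOn.norm.mono (sphere_subset_closedBall.trans hsub))
  have hm : 0 < ‖f t0 - f z1‖ := by
    rw [norm_pos_iff]
    refine (hb t0 (closedBall_subset_ball hrr0 (sphere_subset_closedBall ht0))).1 ?_
    rintro rfl
    rw [mem_sphere, dist_self] at ht0
    exact hr.ne ht0
  set m : ℝ := ‖f t0 - f z1‖ with hmdef
  have hK : IsCompact (closedBall z2 r ∪ {z1}) := (isCompact_closedBall z2 r).union isCompact_singleton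
  have hKU : closedBall z2 r ∪ {z1} ⊆ U := union_subset hsub (singleton_subset_iff.2 h1U)
  have hunif := (tendstoLocallyUniformlyOn_iff_forall_isCompact hU).1 hlim _ hKU hK
  obtain ⟨n, hn⟩ := (Metric.tendstoUniformlyOn_iff.1 hunif (m / 8) (by positivity)).exists
  have happ : ∀ z ∈ closedBall z2 r, ‖(F n z - F n z1) - (f z - f z1)‖ ≤ m / 4 := by
    intro z hz
    have h4 := hn z (Or.inl hz)
    have h5 := hn z1 (Or.inr rfl)
    rw [dist_eq_norm] at h4 h5
    have h6 : (F n z - F n z1) - (f z - f z1) = (f z1 - F n z1) - (f z - F n z) := by ring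
    rw [h6]
    refine (norm_sub_le _ _).trans ?_
    linarith
  have hnz : ∀ z ∈ closedBall z2 r, F n z - F n z1 ≠ 0 := by
    intro z hz h0
    have := hinj n (hsub hz) h1U (sub_eq_zero.1 h0)
    rw [this] at hz
    exact hz1 hz
  have hS : ∀ z ∈ sphere z2 r, 3 * m / 4 ≤ ‖F n z - F n z1‖ := by
    intro z hz
    have h4 := happ z (sphere_subset_closedBall hz)
    have h5 : m ≤ ‖f z - f z1‖ := hmin hz
    have h6 := norm_sub_norm_le (f z - f z1) (F n z - F n z1)
    rw [norm_sub_rev (f z - f z1) (F n z - F n z1)] at h6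
    linarith
  have hd : DiffContOnCl ℂ (fun t => (F n t - F n z1)⁻¹) (ball z2 r) := by
    apply DifferentiableOn.diffContOnCl
    rw [closure_ball z2 hr.ne']
    exact (((hF n).mono hsub).sub (differentiableOn_const _)).inv hnz
  have hC : ∀ z ∈ frontier (ball z2 r), ‖(F n z - F n z1)⁻¹‖ ≤ (3 * m / 4)⁻¹ := by
    intro z hz
    rw [frontier_ball z2 hr.ne'] at hz
    rw [norm_inv]
    exact inv_anti₀ (by positivity) (hS z hz)
  have h4 : ‖(F n z2 - F n z1)⁻¹‖ ≤ (3 * m / 4)⁻¹ :=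
    Complex.norm_le_of_forall_mem_frontier_norm_le isBounded_ball hd hC
      (subset_closure (mem_ball_self hr))
  have h5 : ‖F n z2 - F n z1‖ ≤ m / 4 := by
    have h6 := happ z2 (mem_closedBall_self hr.le)
    rwa [← hfe, sub_self, sub_zero] at h6
  have h7 : 0 < ‖F n z2 - F n z1‖ := norm_pos_iff.2 (hnz z2 (mem_closedBall_self hr.le))
  rw [norm_inv] at h4
  have h9 := (inv_le_inv₀ h7 (show 0 < 3 * m / 4 by positivity)).1 h4
  linarith

theorem pPLM (hULM : Pool.Agent.Helper61.QE.StULM) (hGRW : Pool.Agent.Helper61.QE.StGRW) :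
    Pool.Agent.Helper61.QE.StPLM := by
  intro U M G hG
  have h0 : (0 : ℂ) ∈ D := mem_ball_self one_pos
  obtain ⟨P, hPd, hPl⟩ := hULM U (fun n => PG (G n)) D isOpen_ball (fun n => (hGRW M (G n) (hG n)).1.1) (by
    intro K hK hKc
    rcases K.eq_empty_or_nonempty with rfl | hne
    · exact ⟨0, fun n z hz => hz.elim⟩
    · obtain ⟨z0, hz0, hmax⟩ := hKc.exists_isMaxOn hne continuous_norm.continuousOn
      have hz1 : ‖z0‖ < 1 := by
        have := hK hz0
        rwa [mem_ball_zero_iff] at this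
      refine ⟨4 / (1 - ‖z0‖) ^ 2, fun n z hz => ?_⟩
      have h1 : ‖z‖ ≤ ‖z0‖ := hmax hz
      have h2 := (hGRW M (G n) (hG n)).2.2.2 z (hK hz)
      rw [le_div_iff₀ (by nlinarith)]
      have h3 : (1 - ‖z0‖) ^ 2 ≤ (1 - ‖z‖) ^ 2 := by
        apply pow_le_pow_left₀ (by linarith)
        linarith
      calc ‖PG (G n) z‖ * (1 - ‖z0‖) ^ 2 ≤ ‖PG (G n) z‖ * (1 - ‖z‖) ^ 2 :=
            mul_le_mul_of_nonneg_left h3 (norm_nonneg _)
        _ ≤ 4 * ‖z‖ := h2
        _ ≤ 4 := by linarith)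
  refine ⟨P, hPd, ?_, ?_, hPl⟩
  · rcases hurwitz_PLM (U : Filter ℕ) D (fun n => PG (G n)) P isOpen_ball
      (convex_ball (0 : ℂ) 1).isPreconnected (fun n => (hGRW M (G n) (hG n)).1.1)
      (fun n => (hGRW M (G n) (hG n)).1.2.1) hPl with h | ⟨c, hc⟩
    · exact h
    · exfalso
      have h1 := hPl.deriv (Eventually.of_forall fun n => (hGRW M (G n) (hG n)).1.1) isOpen_ball
      have h2 : Tendsto (fun n => (deriv ∘ fun n => PG (G n)) n 0) (U : Filter ℕ) (𝓝 (deriv P 0)) :=
        h1.tendsto_at h0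
      have h3 : M⁻¹ ≤ ‖deriv P 0‖ :=
        ge_of_tendsto h2.norm (Eventually.of_forall fun n => (hGRW M (G n) (hG n)).1.2.2.2.2.1)
      have h4 : deriv P 0 = 0 := by
        have h5 : P =ᶠ[𝓝 0] fun _ => c := by
          filter_upwards [isOpen_ball.mem_nhds h0] with z hz
          exact hc z hz
        rw [h5.deriv_eq, deriv_const]
      have h6 : 1 ≤ M := (hGRW M (G 0) (hG 0)).1.2.2.2.1
      rw [h4, norm_zero] at h3
      have h7 : 0 < M⁻¹ := by positivity
      linarith
  · have h1 : Tendsto (fun n => PG (G n) 0) (U : Filter ℕ) (𝓝 (P 0)) := hPl.tendsto_at h0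
    have h2 : (fun n => PG (G n) 0) = fun _ => (0 : ℂ) := by
      funext n
      exact (hGRW M (G n) (hG n)).1.2.2.1
    rw [h2] at h1
    exact tendsto_nhds_unique h1 tendsto_const_nhds

end Pool.Agent.Helper5.QE
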